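import Pool.Agent.H832R3.VJ.Fin
import Pool.Agent.Y463.MP.Cnt

/-!
# Vassiliev invariants modulo `N` and the normalised bracket modulo `N`

`SeparatedMod N d X Y`: some integer valued Vassiliev invariant of order at most `d` takes values on `X`
and `Y` which are not congruent modulo `N`.  If the normalised brackets of `X` and `Y` are not congruent
modulo `N`, then `X` and `Y` are separated in this sense, with an order linear in the size of the diagrams
(the coefficients of the expansion of the normalised bracket at `A = 1` are integer valued Vassiliev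
invariants).
-/

set_option autoImplicit false

namespace Pool.Agent.Q124.VN

open Finset LaurentPolynomial Pool.Agent.H891R2.Jones Pool.Agent.H891R2.MT
open Pool.Agent.H832R3.VJ
open Pool.Agent.W705.JR (Within)

/-- Some integer valued Vassiliev invariant (finite type invariant) of order at most `d` takes values on the
diagrams `X` and `Y` which are not congruent modulo `N`.  (For `N = 0` this is `Separated d X Y`.) -/
def SeparatedMod (N d : ℕ) (X Y : Dia) : Prop :=
  ∃ n ≤ d, ∃ v, IsVassiliev n v ∧ ¬ (N : ℤ) ∣ v X - v Y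

theorem SeparatedMod.separated {N d : ℕ} {X Y : Dia} (h : SeparatedMod N d X Y) : Separated d X Y := by
  obtain ⟨n, hn, v, hv, hne⟩ := h
  refine ⟨n, hn, v, hv, fun h => hne ?_⟩
  rw [h, sub_self]
  exact dvd_zero _

theorem SeparatedMod.mono {N d d' : ℕ} (hd : d ≤ d') {X Y : Dia} (h : SeparatedMod N d X Y) :
    SeparatedMod N d' X Y := by
  obtain ⟨n, hn, v, hv, hne⟩ := h
  exact ⟨n, hn.trans hd, v, hv, hne⟩

/-- the binomial moment `∑ (k choose j) a_k` of a Laurent polynomial `∑ a_k T ^ k` -/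
noncomputable def bm (j : ℕ) : ℤ[T;T⁻¹] →+ ℤ where
  toFun f := f.coeff.sum fun k c => c * Ring.choose k j
  map_zero' := by
    rw [AddMonoidAlgebra.coeff_zero, Finsupp.sum_zero_index]
  map_add' f g := by
    rw [AddMonoidAlgebra.coeff_add, Finsupp.sum_add_index']
    · intro k; simp
    · intro k a b; ring

theorem bm_term (j : ℕ) (n a : ℤ) : bm j (C a * T n) = a * Ring.choose n j := by
  show ((C a * T n : ℤ[T;T⁻¹]).coeff.sum fun k c => c * Ring.choose k j) = _
  rw [← single_eq_C_mul_T, AddMonoidAlgebra.coeff_single, Finsupp.sum_single_index]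
  simp

theorem bm_T_mul_succ (j : ℕ) (f : ℤ[T;T⁻¹]) : bm (j + 1) (T 1 * f) = bm j f + bm (j + 1) f := by
  induction f using LaurentPolynomial.induction_on' with
  | add p q hp hq => rw [mul_add, map_add, hp, hq, map_add, map_add]; ring
  | C_mul_T n a =>
    have h1 : (T 1 * (C a * T n) : ℤ[T;T⁻¹]) = C a * T (n + 1) := by
      rw [T_add]; ring
    rw [h1, bm_term, bm_term, bm_term, Ring.choose_succ_succ]
    ring

theorem bm_T_mul_zero (f : ℤ[T;T⁻¹]) : bm 0 (T 1 * f) = bm 0 f := by
  induction f using LaurentPolynomial.induction_on' with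
  | add p q hp hq => rw [mul_add, map_add, hp, hq, map_add]
  | C_mul_T n a =>
    have h1 : (T 1 * (C a * T n) : ℤ[T;T⁻¹]) = C a * T (n + 1) := by
      rw [T_add]; ring
    rw [h1, bm_term, bm_term, Ring.choose_zero_right, Ring.choose_zero_right]

theorem bm_pow (n : ℕ) : ∀ (j : ℕ) (f : ℤ[T;T⁻¹]), j < n → bm j ((T 1 - 1 : ℤ[T;T⁻¹]) ^ n * f) = 0 := by
  induction n with
  | zero => intro j f hj; omega
  | succ n ih =>
    intro j f hj
    have e : ((T 1 - 1 : ℤ[T;T⁻¹]) ^ (n + 1) * f) =
        T 1 * ((T 1 - 1 : ℤ[T;T⁻¹]) ^ n * f) - (T 1 - 1 : ℤ[T;T⁻¹]) ^ n * f := by ring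
    rw [e, map_sub]
    rcases j with _ | j
    · rw [bm_T_mul_zero, sub_self]
    · rw [bm_T_mul_succ, ih j f (by omega)]
      ring

/-- the shifted binomial moment of the normalised bracket -/
noncomputable def vb (W j : ℕ) (X : Dia) : ℤ := bm j (T (W : ℤ) * X.D.fPoly)

theorem sing_vb (W j : ℕ) {P : Type} (hP : Finite P) (arcs : List (P × P))
    (l : List (Crossing P)) : ∀ cr : List (Crossing P),
    sing (vb W j) hP arcs cr l = bm j (T (W : ℤ) * singF arcs cr l) := by
  induction l with
  | nil => intro cr; rfl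
  | cons x l ih =>
    intro cr
    simp only [sing, singF, ih]
    rw [mul_sub, map_sub]

theorem isVassiliev_vb (W j : ℕ) : IsVassiliev j (vb W j) := by
  refine ⟨fun X Y hX hY h => ?_, fun P hP arcs cr l hl _ => ?_⟩
  · show bm j (T (W : ℤ) * X.D.fPoly) = bm j (T (W : ℤ) * Y.D.fPoly)
    rw [fPoly_move X Y hX hY h]
  · rw [sing_vb]
    obtain ⟨G, hG⟩ := singF_dvd arcs cr l
    rw [hl] at hG
    rw [hG]
    have e : (T (W : ℤ) * ((T 1 - 1 : ℤ[T;T⁻¹]) ^ (j + 1) * G)) =
        (T 1 - 1 : ℤ[T;T⁻¹]) ^ (j + 1) * (T (W : ℤ) * G) := by ring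
    rw [e]
    exact bm_pow (j + 1) j _ (Nat.lt_succ_self j)

/-- divisibility of Laurent polynomials by integers -/
theorem dvd_iff (N : ℕ) (f : ℤ[T;T⁻¹]) : (N : ℤ[T;T⁻¹]) ∣ f ↔ ∀ k, (N : ℤ) ∣ f.coeff k := by
  constructor
  · rintro ⟨g, rfl⟩ k
    refine ⟨g.coeff k, ?_⟩
    rw [← nsmul_eq_mul, AddMonoidAlgebra.coeff_smul]
    simp
  · intro h
    choose g hg using h
    refine ⟨⟨Finsupp.onFinset f.coeff.support (fun k => if f.coeff k = 0 then 0 else g k) (by
      intro k hk
      rw [Finsupp.mem_support_iff]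
      intro h0
      apply hk
      rw [if_pos h0])⟩, ?_⟩
    rw [← nsmul_eq_mul]
    ext k
    rw [AddMonoidAlgebra.coeff_smul]
    simp only [Finsupp.smul_apply, Finsupp.onFinset_apply]
    split_ifs with h0
    · rw [smul_zero]
      exact h0
    · rw [nsmul_eq_mul]
      exact hg k

/-- a Laurent polynomial in a window whose binomial moments are divisible by `N` is divisible by `N` -/
theorem dvd_of_bm (N W : ℕ) (f : ℤ[T;T⁻¹]) (hf : Within W f)
    (h : ∀ j ≤ 2 * W, (N : ℤ) ∣ bm j (T (W : ℤ) * f)) : (N : ℤ[T;T⁻¹]) ∣ f := by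
  classical
  rw [dvd_iff]
  by_contra hcon
  push Not at hcon
  obtain ⟨k0, hk0⟩ := hcon
  set S : Finset ℤ := f.coeff.support.filter (fun k => ¬ (N : ℤ) ∣ f.coeff k) with hS
  have hmem : ∀ k, k ∈ S ↔ ¬ (N : ℤ) ∣ f.coeff k := by
    intro k
    rw [hS, Finset.mem_filter, Finsupp.mem_support_iff]
    refine ⟨fun h => h.2, fun h => ⟨fun h0 => h ?_, h⟩⟩
    rw [h0]
    exact dvd_zero _
  have hne : S.Nonempty := ⟨k0, (hmem k0).2 hk0⟩
  set k := S.max' hne with hk
  have hkS : k ∈ S := S.max'_mem hne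
  have hkN := (hmem k).1 hkS
  have hk0' : f.coeff k ≠ 0 := by
    intro h0
    apply hkN
    rw [h0]
    exact dvd_zero _
  have hkW := hf k hk0'
  rw [abs_le] at hkW
  have h1 := h (k + W).toNat (by omega)
  apply hkN
  have h2 : bm (k + W).toNat (T (W : ℤ) * f) =
      ∑ l ∈ f.coeff.support, f.coeff l * Ring.choose (l + W) (k + W).toNat := by
    have e : ∀ g : ℤ[T;T⁻¹], bm (k + W).toNat (T (W : ℤ) * g) =
        g.coeff.sum fun l c => c * Ring.choose (l + W) (k + W).toNat := by
      intro g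
      induction g using LaurentPolynomial.induction_on' with
      | add p q hp hq =>
        rw [mul_add, map_add, hp, hq, AddMonoidAlgebra.coeff_add, Finsupp.sum_add_index']
        · intro l; simp
        · intro l a b; ring
      | C_mul_T n a =>
        have h1 : (T (W : ℤ) * (C a * T n) : ℤ[T;T⁻¹]) = C a * T (n + W) := by
          rw [T_add]; ring
        rw [h1, bm_term, ← single_eq_C_mul_T, AddMonoidAlgebra.coeff_single,
          Finsupp.sum_single_index]
        simp
    rw [e]
    rfl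
  rw [h2, ← Finset.add_sum_erase _ _ (Finsupp.mem_support_iff.2 hk0')] at h1
  have hch : ∀ l : ℤ, |l| ≤ W →
      Ring.choose (l + W) (k + W).toNat = ((l + W).toNat.choose (k + W).toNat : ℤ) := by
    intro l hl
    rw [abs_le] at hl
    obtain ⟨a, ha⟩ := Int.eq_ofNat_of_zero_le (show 0 ≤ l + W by omega)
    rw [ha, Int.toNat_natCast]
    exact Ring.choose_natCast a _
  have h3 : Ring.choose (k + W) (k + W).toNat = (1 : ℤ) := by
    rw [hch k (by rw [abs_le]; exact hkW), Nat.choose_self, Nat.cast_one]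
  have h4 : (N : ℤ) ∣ ∑ l ∈ f.coeff.support.erase k,
      f.coeff l * Ring.choose (l + W) (k + W).toNat := by
    refine Finset.dvd_sum fun l hl => ?_
    rw [Finset.mem_erase, Finsupp.mem_support_iff] at hl
    by_cases hlS : l ∈ S
    · have hlk : l ≤ k := S.le_max' l hlS
      have hlW := hf l hl.2
      rw [hch l hlW, Nat.choose_eq_zero_of_lt (by rw [abs_le] at hlW; omega), Nat.cast_zero, mul_zero]
      exact dvd_zero _
    · rw [hmem, not_not] at hlS
      exact hlS.mul_right _
  rw [h3, mul_one] at h1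
  exact (dvd_add_left h4).1 h1

theorem within_sub {W : ℕ} {f g : ℤ[T;T⁻¹]} (hf : Within W f) (hg : Within W g) : Within W (f - g) := by
  rw [sub_eq_add_neg]
  exact hf.add hg.neg

/-- Diagrams whose normalised brackets are not congruent modulo `N` are separated by Vassiliev invariants
modulo `N` of linear order. -/
theorem sepMod (N W : ℕ) (X Y : Dia) (hX : Within W X.D.fPoly) (hY : Within W Y.D.fPoly)
    (h : ¬ (N : ℤ[T;T⁻¹]) ∣ X.D.fPoly - Y.D.fPoly) : SeparatedMod N (2 * W) X Y := by
  by_contra hs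
  apply h
  apply dvd_of_bm N W _ (within_sub hX hY)
  intro j hj
  by_contra hne
  apply hs
  refine ⟨j, hj, vb W j, isVassiliev_vb W j, ?_⟩
  unfold vb
  rw [← map_sub, ← mul_sub]
  exact hne

theorem within_unknot {W : ℕ} : Within W unknot.D.fPoly := by
  rw [fPoly_unknot]
  exact Within.mono Pool.Agent.W705.JR.Within.one (Nat.zero_le _)

end Pool.Agent.Q124.VN
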