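import Pool.Agent.Q124.VN.Basic
import Pool.Agent.Y463.UT.Fin
import Pool.Agent.Y463.KN.Basic

/-!
# Vassiliev invariants modulo `N` of diagrams with braid words in a box
-/

set_option autoImplicit false

namespace Pool.Agent.Q124.VN

open Finset LaurentPolynomial Pool.Agent.H891R2.Jones Pool.Agent.W639.RB Pool.Agent.Y463.SK
  Pool.Agent.Y463.UT Pool.Agent.Y463.MP
open Pool.Agent.H832R3.VJ (Dia IsVassiliev unknot)
open Pool.Agent.W705.JR (Within)

/-- the diagram with the word `w` (a list of letters) in the box of `O`, with its finite set of marked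
points -/
def boxDia {m : ℕ} (O : Outer m) (w : List (Letter m)) : Dia :=
  ⟨(draw O (w.map (fun x => (x.1, (x.2 : ℕ))))).P, inferInstance, Pool.Agent.Y463.SK.dia O w⟩

/-- `8` times the number of crossings plus `4` times the number of marked points -/
noncomputable def cost (X : Dia) : ℕ := 8 * X.D.crossings.length + 4 * Nat.card X.P

theorem sepMod_cost (N d : ℕ) (X Y : Dia) (hX : cost X ≤ d) (hY : cost Y ≤ d)
    (h : ¬ (N : ℤ[T;T⁻¹]) ∣ X.D.fPoly - Y.D.fPoly) : SeparatedMod N d X Y := by
  unfold cost at hX hY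
  have h1 := @within_fPoly X.P X.fin X.D
  have h2 := @within_fPoly Y.P Y.fin Y.D
  have h3 := sepMod N (d / 2) X Y (h1.mono (by omega)) (h2.mono (by omega)) h
  exact h3.mono (by omega)

theorem cost_boxDia {m : ℕ} (O : Outer m) (w : List (Letter m)) :
    cost (boxDia O w) = 8 * (O.crossings.length + w.length) + 4 * (Nat.card O.P + m * w.length) := by
  have h := Pool.Agent.W705.JR.draw_size (w.map (fun x : Letter m => (x.1, (x.2 : ℕ)))) O (by
    intro x hx
    rw [List.mem_map] at hx
    obtain ⟨y, _, rfl⟩ := hx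
    have := y.2.2
    show (y.2 : ℕ) + 1 < m
    omega)
  rw [List.length_map] at h
  obtain ⟨h1, h2⟩ := h
  have h3 : cost (boxDia O w) = 8 * (draw O (w.map (fun x : Letter m => (x.1, (x.2 : ℕ))))).crossings.length +
      4 * Nat.card (draw O (w.map (fun x : Letter m => (x.1, (x.2 : ℕ))))).P := rfl
  rw [h3, h1, h2]

theorem cost_unknot : cost unknot = 4 := by
  unfold cost unknot
  simp

theorem tw_length' {m k : ℕ} (i : Fin k → Fin (m - 1)) (x : Fin k → ℤ) :
    (tw i x).length = ∑ j, (x j).natAbs := by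
  have h := tw_length i x
  have h2 : ((∑ j, (x j).natAbs : ℕ) : ℤ) = ∑ j, |x j| := by
    push_cast
    refine Finset.sum_congr rfl fun j _ => ?_
    rfl
  rw [← h2] at h
  exact_mod_cast h

theorem tw_multi {m k : ℕ} (i : Fin k → Fin (m - 1)) (x : Fin k → ℤ) :
    tw i x = multiW (fun j => [((true, i j) : Letter m)]) (fun _ => []) x := by
  unfold tw multiW
  congr 1
  congr 1
  funext j
  rw [List.append_nil]

theorem pure_two {m : ℕ} (i : Fin (m - 1)) : IsPure (powW [((true, i) : Letter m)] ((2 : ℕ) : ℤ)) := by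
  unfold IsPure permW
  show (List.map _ ((List.replicate 2 [((true, i) : Letter m)]).flatten)).prod = 1
  simp [List.replicate]

/-- the permutation of a word `σ_{i_1}^{x_1} ⋯ σ_{i_k}^{x_k}` depends only on the exponents modulo 2 -/
theorem perm_tw {m k : ℕ} (i : Fin k → Fin (m - 1)) (s x : Fin k → ℤ) (h : ∀ j, (2 : ℤ) ∣ x j - s j) :
    permW (tw i x) = permW (tw i s) := by
  choose q hq using h
  have h1 := Pool.Agent.Y463.KN.permW_multi (fun j => [((true, i j) : Letter m)]) (fun _ => [])
    (fun _ => 2) (fun j => pure_two (i j)) s q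
  rw [tw_multi, tw_multi, ← h1]
  congr 1
  congr 1
  funext j
  have := hq j
  push_cast
  linarith

theorem closed_inst {P : Type} (D : Diagram P) (i1 i2 : DecidableEq P)
    (h : @Diagram.IsClosed P i1 D) : @Diagram.IsClosed P i2 D := by
  have e : i1 = i2 := Subsingleton.elim _ _
  subst e
  exact h

/-- words whose permutation preserves the directions of the strands give diagrams of oriented links -/
theorem boxDia_link {m : ℕ} (hm : 0 < m) (O : Outer m) (hO : O.close.IsClosed) (w : List (Letter m))
    (h : ∀ j, O.up (permW w j) = O.up j) : (boxDia O w).IsLink :=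
  ⟨⟨(draw O (w.map (fun x : Letter m => (x.1, (x.2 : ℕ))))).lower ⟨0, hm⟩⟩,
    closed_inst (Pool.Agent.Y463.SK.dia O w) _ _ (Pool.Agent.Y463.RW.dia_closed O hO w h)⟩

end Pool.Agent.Q124.VN
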