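import Pool.Agent.Q124.VN.Box
import Pool.Agent.Y463.MP.SgnFin

/-!
# Vassiliev invariants modulo `N` of diagrams with braid words in a box (words as functions)
-/

set_option autoImplicit false

namespace Pool.Agent.Q124.VN

open Finset LaurentPolynomial Pool.Agent.H891R2.Jones Pool.Agent.W639.RB Pool.Agent.Y463.SK
  Pool.Agent.Y463.UT Pool.Agent.Y463.MP
open Pool.Agent.H832R3.VJ (Dia IsVassiliev unknot)
open Pool.Agent.W705.JR (Within)

/-- the diagram with the word `w` in the box of `O`, with its finite set of marked points -/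
def wordDia {m n : ℕ} (O : Outer m) (w : Fin n → Letter m) : Dia :=
  ⟨(draw O (toL w)).P, inferInstance, diagram O w⟩

theorem cost_wordDia {m n : ℕ} (O : Outer m) (w : Fin n → Letter m) :
    cost (wordDia O w) = 8 * (O.crossings.length + n) + 4 * (Nat.card O.P + m * n) := by
  obtain ⟨h1, h2⟩ := Pool.Agent.W705.JR.draw_size (toL w) O (toL_mem w)
  have h3 : (toL w).length = n := by simp [toL]
  rw [h3] at h1 h2
  have h4 : cost (wordDia O w) = 8 * (draw O (toL w)).crossings.length +
      4 * Nat.card (draw O (toL w)).P := rfl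
  rw [h4, h1, h2]

theorem permW_ofFn {m n : ℕ} (w : Fin n → Letter m) : permW (List.ofFn w) = perm w := by
  unfold permW
  rw [perm_eq]
  rfl

/-- crossing changes do not change the permutation -/
theorem perm_flips {m n : ℕ} (w w' : Fin n → Letter m) (S : Finset (Fin n)) (h : w' ∈ Flips w S) :
    perm w' = perm w := by
  rw [← permW_ofFn, ← permW_ofFn]
  unfold permW
  rw [List.map_ofFn, List.map_ofFn]
  congr 1
  congr 1
  funext j
  simp only [Function.comp_apply]
  unfold Flips at h
  rw [Finset.mem_filter] at h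
  exact congrArg (fun i : Fin (m - 1) =>
    Equiv.swap (⟨(i : ℕ), by omega⟩ : Fin m) ⟨(i : ℕ) + 1, by omega⟩) (h.2.1 j)

theorem toL_eq {m n : ℕ} (w : Fin n → Letter m) :
    toL w = (List.ofFn w).map (fun x : Letter m => (x.1, (x.2 : ℕ))) := by
  unfold toL
  rw [List.map_ofFn]
  rfl

theorem draw_link {m : ℕ} (O : Outer m) (L L' : List (Bool × ℕ)) (e : L = L')
    (h : Dia.IsLink ⟨(draw O L).P, inferInstance, (draw O L).close⟩) :
    Dia.IsLink ⟨(draw O L').P, inferInstance, (draw O L').close⟩ := by
  subst e
  exact h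

theorem wordDia_link {m n : ℕ} (hm : 0 < m) (O : Outer m) (hO : O.close.IsClosed) (w : Fin n → Letter m)
    (h : ∀ j, O.up (perm w j) = O.up j) : (wordDia O w).IsLink := by
  have h1 := boxDia_link hm O hO (List.ofFn w) (by rw [permW_ofFn]; exact h)
  exact draw_link O _ _ (toL_eq w).symm h1

theorem switches_le {m n : ℕ} (w : Fin n → Letter m) (S : Finset (Fin n)) : switches w S ≤ n := by
  unfold switches
  refine (Finset.card_le_univ _).trans ?_
  rw [Fintype.card_fin]

end Pool.Agent.Q124.VN
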